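import Pool.Agent.V11109.NN.Refute
import Pool.Agent.V11109.Conj.Final

/-!
# The approximation property of the Cuntz algebra `O_∞` in its vacuum representation
-/

set_option autoImplicit false
set_option linter.style.haveILetI false
set_option linter.unusedSectionVars false

open scoped ComplexOrder InnerProductSpace
open Filter Topology

namespace Pool.Agent.V11109.NN

open Pool.Agent.V11109.Free Pool.Agent.V11109.Conj Pool.Agent.V11109.Fock Pool.Agent.V11109.PureExt

/-- words with letters `< n` and length at most `M` -/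
def SS (n : ℕ) : ℕ → Finset (List ℕ)
  | 0 => {[]}
  | M + 1 => insert [] ((Finset.range n ×ˢ SS n M).image fun p => p.1 :: p.2)

lemma sum_SS {B : Type*} [AddCommMonoid B] (n M : ℕ) (f : List ℕ → B) :
    ∑ v ∈ SS n (M + 1), f v = f [] + ∑ l ∈ Finset.range n, ∑ v ∈ SS n M, f (l :: v) := by
  rw [SS, Finset.sum_insert (by simp), Finset.sum_image (by
    rintro ⟨a, b⟩ _ ⟨c, d⟩ _ h
    simpa using h), Finset.sum_product]

lemma sum_SS_zero {B : Type*} [AddCommMonoid B] (n : ℕ) (f : List ℕ → B) :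
    ∑ v ∈ SS n 0, f v = f [] := by simp [SS]

section

variable {E : Type} [CStarAlgebra E] {T : ℕ → E} (hT : IsCuntzFamily T) {ρ : E →ₗ[ℂ] ℂ}
  (hρ : IsState ρ) (h0 : ∀ l, ρ (T l * star (T l)) = 0)

/-- the *-homomorphism `y ↦ ∑ T l y (T l)^*` -/
noncomputable def PP (hT : IsCuntzFamily T) (n : ℕ) : E →⋆ₙₐ[ℂ] E where
  toFun y := ∑ l ∈ Finset.range n, T l * y * star (T l)
  map_zero' := by simp
  map_add' x y := by
    rw [← Finset.sum_add_distrib]
    exact Finset.sum_congr rfl fun l _ => by rw [mul_add, add_mul]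
  map_smul' c x := by
    simp only [MonoidHom.id_apply, Finset.smul_sum]
    exact Finset.sum_congr rfl fun l _ => by rw [mul_smul_comm, smul_mul_assoc]
  map_mul' x y := by
    rw [Finset.sum_mul]
    refine Finset.sum_congr rfl fun l hl => ?_
    rw [Finset.mul_sum, Finset.sum_eq_single l]
    · have : T l * x * star (T l) * (T l * y * star (T l))
          = T l * x * (star (T l) * T l) * y * star (T l) := by simp only [mul_assoc]
      rw [this, hT.iso, mul_one, mul_assoc (T l) x y]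
    · intro m _ hm
      have : T l * x * star (T l) * (T m * y * star (T m))
          = T l * x * (star (T l) * T m) * y * star (T m) := by simp only [mul_assoc]
      rw [this, hT.orth l m hm.symm, mul_zero, zero_mul, zero_mul]
    · intro h; exact absurd hl h
  map_star' x := by
    rw [star_sum]
    exact Finset.sum_congr rfl fun l _ => by rw [star_mul, star_mul, star_star, mul_assoc]

lemma PP_apply (n : ℕ) (y : E) : PP hT n y = ∑ l ∈ Finset.range n, T l * y * star (T l) := rfl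

lemma PP_norm (n : ℕ) (y : E) : ‖PP hT n y‖ ≤ ‖y‖ := NonUnitalStarAlgHom.norm_apply_le _ y

lemma PP_one_mul (n : ℕ) : PP hT n 1 * PP hT n 1 = PP hT n 1 := by
  rw [← map_mul, one_mul]

/-- the defect operator -/
noncomputable def Dl (hT : IsCuntzFamily T) (n : ℕ) (r : ℝ) : E :=
  1 - PP hT n 1 + (Real.sqrt (1 - r ^ 2) : ℂ) • PP hT n 1

lemma star_Dl (n : ℕ) (r : ℝ) : star (Dl hT n r) = Dl hT n r := by
  rw [Dl, star_add, star_sub, star_one, star_smul, ← map_star, star_one]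
  congr 2
  exact Complex.conj_ofReal _

lemma Dl_sq (n : ℕ) {r : ℝ} (h1 : r ^ 2 ≤ 1) :
    Dl hT n r * star (Dl hT n r) = 1 - ((r ^ 2 : ℝ) : ℂ) • PP hT n 1 := by
  rw [star_Dl, Dl]
  set q := PP hT n 1
  have hq : q * q = q := PP_one_mul hT n
  have h2 : ((Real.sqrt (1 - r ^ 2) : ℂ)) * (Real.sqrt (1 - r ^ 2) : ℂ) = ((1 - r ^ 2 : ℝ) : ℂ) := by
    rw [← Complex.ofReal_mul, Real.mul_self_sqrt (by linarith)]
  set c : ℂ := (Real.sqrt (1 - r ^ 2) : ℂ)
  have h3 : (1 - q + c • q) * (1 - q + c • q) = 1 - q + (c * c) • q := by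
    simp only [add_mul, mul_add, sub_mul, mul_sub, one_mul, mul_one, smul_mul_assoc, mul_smul_comm,
      hq]
    module
  rw [h3, h2, Complex.ofReal_sub, sub_smul, Complex.ofReal_one, one_smul]
  abel

/-- the vectors of the factorization -/
noncomputable def yv (hT : IsCuntzFamily T) (n : ℕ) (r : ℝ) : List ℕ → E
  | [] => Dl hT n r
  | l :: v => (r : ℂ) • (T l * yv hT n r v)

/-- the sum of the `y y^*` -/
noncomputable def ZZ (hT : IsCuntzFamily T) (n : ℕ) (r : ℝ) (M : ℕ) : E :=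
  ∑ v ∈ SS n M, yv hT n r v * star (yv hT n r v)

lemma ZZ_zero (n : ℕ) {r : ℝ} (h1 : r ^ 2 ≤ 1) :
    ZZ hT n r 0 = 1 - ((r ^ 2 : ℝ) : ℂ) • PP hT n 1 := by
  rw [ZZ, sum_SS_zero, yv, Dl_sq hT n h1]

lemma smul_conj (r : ℝ) (a b x y : E) :
    ((r : ℂ) • (a * x)) * star ((r : ℂ) • (b * y)) = ((r ^ 2 : ℝ) : ℂ) • (a * (x * star y) * star b)
    := by
  rw [star_smul, Complex.star_def, Complex.conj_ofReal, star_mul, smul_mul_assoc, mul_smul_comm,
    smul_smul]
  congr 1
  · push_cast; ring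
  · simp only [mul_assoc]

lemma ZZ_succ (n : ℕ) {r : ℝ} (h1 : r ^ 2 ≤ 1) (M : ℕ) :
    ZZ hT n r (M + 1) = 1 - ((r ^ 2 : ℝ) : ℂ) • PP hT n 1
      + ((r ^ 2 : ℝ) : ℂ) • PP hT n (ZZ hT n r M) := by
  rw [ZZ, sum_SS]
  congr 1
  · rw [yv, Dl_sq hT n h1]
  · rw [PP_apply, Finset.smul_sum]
    refine Finset.sum_congr rfl fun l _ => ?_
    rw [ZZ, Finset.mul_sum, Finset.sum_mul, Finset.smul_sum]
    refine Finset.sum_congr rfl fun v _ => ?_
    rw [yv, smul_conj]

lemma err_zero (n : ℕ) {r : ℝ} (h1 : r ^ 2 ≤ 1) :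
    1 - ZZ hT n r 0 = ((r ^ 2 : ℝ) : ℂ) • PP hT n 1 := by
  rw [ZZ_zero hT n h1, sub_sub_cancel]

lemma err_succ (n : ℕ) {r : ℝ} (h1 : r ^ 2 ≤ 1) (M : ℕ) :
    1 - ZZ hT n r (M + 1) = ((r ^ 2 : ℝ) : ℂ) • PP hT n (1 - ZZ hT n r M) := by
  rw [ZZ_succ hT n h1, map_sub, smul_sub]
  abel

lemma norm_one_le : ‖(1 : E)‖ ≤ 1 := by
  rcases subsingleton_or_nontrivial E with hs | hs
  · rw [Subsingleton.elim (1 : E) 0, norm_zero]; exact zero_le_one
  · rw [norm_one]

lemma err_norm (n : ℕ) {r : ℝ} (h1 : r ^ 2 ≤ 1) (M : ℕ) :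
    ‖1 - ZZ hT n r M‖ ≤ (r ^ 2) ^ (M + 1) := by
  have hr : ‖((r ^ 2 : ℝ) : ℂ)‖ = r ^ 2 := by
    rw [Complex.norm_real, Real.norm_of_nonneg (sq_nonneg r)]
  induction M with
  | zero =>
    rw [err_zero hT n h1, norm_smul, hr, zero_add, pow_one]
    exact mul_le_of_le_one_right (sq_nonneg r) ((PP_norm hT n 1).trans norm_one_le)
  | succ M ih =>
    rw [err_succ hT n h1, norm_smul, hr, pow_succ (r ^ 2) (M + 1), mul_comm ((r ^ 2) ^ (M + 1))]
    gcongr
    exact (PP_norm hT n _).trans ih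

lemma ZZ_norm (n : ℕ) {r : ℝ} (h1 : r ^ 2 ≤ 1) (M : ℕ) : ‖ZZ hT n r M‖ ≤ 1 := by
  letI := CStarAlgebra.spectralOrder E
  haveI := CStarAlgebra.spectralOrderedRing E
  have hpos : 0 ≤ ZZ hT n r M :=
    Finset.sum_nonneg fun v _ => mul_star_self_nonneg _
  have herr : 0 ≤ 1 - ZZ hT n r M := by
    have hsm : ∀ y : E, 0 ≤ y → 0 ≤ ((r ^ 2 : ℝ) : ℂ) • PP hT n y := by
      intro y hy
      rw [Complex.coe_smul]
      refine smul_nonneg (sq_nonneg r) ?_
      rw [PP_apply]
      exact Finset.sum_nonneg fun l _ => star_right_conjugate_nonneg hy _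
    induction M with
    | zero => rw [err_zero hT n h1]; exact hsm 1 zero_le_one
    | succ M ih =>
      rw [err_succ hT n h1]
      exact hsm _ (ih (Finset.sum_nonneg fun v _ => mul_star_self_nonneg _))
  exact (CStarAlgebra.norm_le_one_iff_of_nonneg _ hpos).mpr (sub_nonneg.mp herr)

include hρ h0 in
lemma rho_left (l : ℕ) (a : E) : ρ (T l * a) = 0 := by
  have h1 := cs_le' hρ.pos (T l) a
  have h2 : nn ρ (star (T l)) = 0 := by
    rw [nn, star_star, h0]; simp
  rw [h2, zero_mul] at h1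
  exact norm_le_zero_iff.mp h1

include hρ h0 in
lemma rho_right (l : ℕ) (a : E) : ρ (a * star (T l)) = 0 := by
  have h1 := rho_left hρ h0 l (star a)
  have h2 : ρ (star (T l * star a)) = 0 := by rw [st_star hρ.pos, h1, star_zero]
  rwa [star_mul, star_star] at h2

/-- the approximating maps -/
noncomputable def Ph (hT : IsCuntzFamily T) (ρ : E →ₗ[ℂ] ℂ) (n : ℕ) (r : ℝ) (M M' : ℕ) (a : E) : E :=
  ∑ v ∈ SS n M, ∑ w ∈ SS n M', ρ (star (Fock.sw T v) * (a * Fock.sw T w)) •
    (yv hT n r v * star (yv hT n r w))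

lemma Ph_add (n : ℕ) (r : ℝ) (M M' : ℕ) (a b : E) :
    Ph hT ρ n r M M' (a + b) = Ph hT ρ n r M M' a + Ph hT ρ n r M M' b := by
  simp only [Ph, add_mul, mul_add, map_add, add_smul, Finset.sum_add_distrib]

lemma Ph_smul (n : ℕ) (r : ℝ) (M M' : ℕ) (c : ℂ) (a : E) :
    Ph hT ρ n r M M' (c • a) = c • Ph hT ρ n r M M' a := by
  simp only [Ph, smul_mul_assoc, mul_smul_comm, map_smul, smul_eq_mul, Finset.smul_sum, smul_smul]

include hρ in
lemma Ph_star (n : ℕ) (r : ℝ) (M M' : ℕ) (a : E) :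
    star (Ph hT ρ n r M M' a) = Ph hT ρ n r M' M (star a) := by
  rw [Ph, Ph, star_sum]
  simp only [star_sum]
  rw [Finset.sum_comm]
  refine Finset.sum_congr rfl fun w _ => Finset.sum_congr rfl fun v _ => ?_
  rw [star_smul, star_mul, star_star, ← st_star hρ.pos, star_mul, star_mul, star_star, mul_assoc]

include hρ h0 in
lemma Ph_left (n : ℕ) (r : ℝ) (M M' : ℕ) {l : ℕ} (hl : l < n) (a : E) :
    Ph hT ρ n r (M + 1) M' (T l * a) = (r : ℂ) • (T l * Ph hT ρ n r M M' a) := by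
  rw [Ph, sum_SS]
  have h1 : ∑ w ∈ SS n M', ρ (star (Fock.sw T []) * (T l * a * Fock.sw T w)) •
      (yv hT n r [] * star (yv hT n r w)) = 0 := by
    refine Finset.sum_eq_zero fun w _ => ?_
    rw [Fock.sw_nil, star_one, one_mul, mul_assoc, rho_left hρ h0, zero_smul]
  rw [h1, zero_add, Finset.sum_eq_single l]
  · rw [Ph, Finset.mul_sum, Finset.smul_sum]
    refine Finset.sum_congr rfl fun v _ => ?_
    rw [Finset.mul_sum, Finset.smul_sum]
    refine Finset.sum_congr rfl fun w _ => ?_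
    have h2 : star (Fock.sw T (l :: v)) * (T l * a * Fock.sw T w)
        = star (Fock.sw T v) * (a * Fock.sw T w) := by
      rw [Fock.sw_cons, star_mul]
      calc star (Fock.sw T v) * star (T l) * (T l * a * Fock.sw T w)
          = star (Fock.sw T v) * (star (T l) * T l) * a * Fock.sw T w := by simp only [mul_assoc]
        _ = _ := by rw [hT.iso, mul_one, mul_assoc]
    rw [h2, yv, smul_mul_assoc, mul_assoc, smul_comm, mul_smul_comm]
  · intro m _ hm
    refine Finset.sum_eq_zero fun v _ => Finset.sum_eq_zero fun w _ => ?_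
    have h2 : star (Fock.sw T (m :: v)) * (T l * a * Fock.sw T w) = 0 := by
      rw [Fock.sw_cons, star_mul]
      calc star (Fock.sw T v) * star (T m) * (T l * a * Fock.sw T w)
          = star (Fock.sw T v) * (star (T m) * T l) * a * Fock.sw T w := by simp only [mul_assoc]
        _ = _ := by rw [hT.orth m l hm, mul_zero, zero_mul, zero_mul]
    rw [h2, map_zero, zero_smul]
  · intro h; exact absurd (Finset.mem_range.mpr hl) h

include hρ h0 in
lemma Ph_sw_left (n : ℕ) (r : ℝ) (M M' : ℕ) {α : List ℕ} (hα : ∀ l ∈ α, l < n) (a : E) :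
    Ph hT ρ n r (M + α.length) M' (Fock.sw T α * a)
      = ((r ^ α.length : ℝ) : ℂ) • (Fock.sw T α * Ph hT ρ n r M M' a) := by
  induction α with
  | nil => simp
  | cons l α ih =>
    rw [List.length_cons, ← add_assoc, Fock.sw_cons, mul_assoc,
      Ph_left hT hρ h0 n r _ _ (hα l List.mem_cons_self),
      ih (fun k hk => hα k (List.mem_cons_of_mem _ hk)), mul_smul_comm, smul_smul, mul_assoc]
    congr 1
    push_cast
    ring

include hρ h0 in
lemma Ph_sw_right (n : ℕ) (r : ℝ) (M M' : ℕ) {β : List ℕ} (hβ : ∀ l ∈ β, l < n) (a : E) :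
    Ph hT ρ n r M (M' + β.length) (a * star (Fock.sw T β))
      = ((r ^ β.length : ℝ) : ℂ) • (Ph hT ρ n r M M' a * star (Fock.sw T β)) := by
  rw [← star_star (Ph hT ρ n r M (M' + β.length) (a * star (Fock.sw T β))), Ph_star hT hρ,
    star_mul, star_star, Ph_sw_left hT hρ h0 n r M' M hβ, star_smul, star_mul, Ph_star hT hρ,
    star_star, Complex.star_def, Complex.conj_ofReal]

include hρ h0 in
lemma Ph_one (n : ℕ) (r : ℝ) (M : ℕ) : ∀ M' : ℕ,
    Ph hT ρ n r M M' 1 = ZZ hT n r (min M M') := by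
  have hnil : ∀ (l : ℕ) (v : List ℕ), ρ (Fock.sw T (l :: v)) = 0 := fun l v => by
    rw [Fock.sw_cons]; exact rho_left hρ h0 l _
  have hnil' : ∀ (l : ℕ) (v : List ℕ), ρ (star (Fock.sw T (l :: v))) = 0 := fun l v => by
    rw [st_star hρ.pos, hnil, star_zero]
  induction M with
  | zero =>
    intro M'
    rw [Nat.zero_min, Ph, ZZ, sum_SS_zero, sum_SS_zero]
    cases M' with
    | zero => rw [sum_SS_zero]; simp [hρ.one]
    | succ M' =>
      rw [sum_SS]
      have h1 : ∑ l ∈ Finset.range n, ∑ w ∈ SS n M',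
          ρ (star (Fock.sw T []) * (1 * Fock.sw T (l :: w))) •
            (yv hT n r [] * star (yv hT n r (l :: w))) = 0 :=
        Finset.sum_eq_zero fun l _ => Finset.sum_eq_zero fun w _ => by
          rw [Fock.sw_nil, star_one, one_mul, one_mul, hnil, zero_smul]
      rw [h1, add_zero]
      simp [hρ.one]
  | succ M ih =>
    intro M'
    cases M' with
    | zero =>
      rw [Nat.min_zero, Ph, ZZ, sum_SS_zero, sum_SS]
      have h1 : ∑ l ∈ Finset.range n, ∑ v ∈ SS n M, ∑ w ∈ SS n 0,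
          ρ (star (Fock.sw T (l :: v)) * (1 * Fock.sw T w)) •
            (yv hT n r (l :: v) * star (yv hT n r w)) = 0 :=
        Finset.sum_eq_zero fun l _ => Finset.sum_eq_zero fun v _ => by
          rw [sum_SS_zero, Fock.sw_nil, one_mul, mul_one, hnil', zero_smul]
      rw [h1, add_zero, sum_SS_zero]
      simp [hρ.one]
    | succ M' =>
      rw [Nat.add_min_add_right, ZZ, sum_SS, Ph, sum_SS]
      congr 1
      · rw [sum_SS]
        have h1 : ∑ l ∈ Finset.range n, ∑ w ∈ SS n M',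
            ρ (star (Fock.sw T []) * (1 * Fock.sw T (l :: w))) •
              (yv hT n r [] * star (yv hT n r (l :: w))) = 0 :=
          Finset.sum_eq_zero fun l _ => Finset.sum_eq_zero fun w _ => by
            rw [Fock.sw_nil, star_one, one_mul, one_mul, hnil, zero_smul]
        rw [h1, add_zero]
        simp [hρ.one]
      · refine Finset.sum_congr rfl fun l hl => ?_
        have h2 : ∀ v, ∑ w ∈ SS n (M' + 1), ρ (star (Fock.sw T (l :: v)) * (1 * Fock.sw T w)) •
            (yv hT n r (l :: v) * star (yv hT n r w))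
            = ((r ^ 2 : ℝ) : ℂ) • (T l * (∑ w ∈ SS n M', ρ (star (Fock.sw T v) * (1 * Fock.sw T w)) •
              (yv hT n r v * star (yv hT n r w))) * star (T l)) := by
          intro v
          rw [sum_SS]
          have h3 : ρ (star (Fock.sw T (l :: v)) * (1 * Fock.sw T [])) •
            (yv hT n r (l :: v) * star (yv hT n r [])) = 0 := by
            rw [Fock.sw_nil, one_mul, mul_one, hnil', zero_smul]
          rw [h3, zero_add, Finset.sum_eq_single l]
          · rw [Finset.mul_sum, Finset.sum_mul, Finset.smul_sum]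
            refine Finset.sum_congr rfl fun w _ => ?_
            rw [one_mul, one_mul, star_sw_cons_self hT, yv, yv, smul_conj, mul_smul_comm,
              smul_mul_assoc, smul_comm]
          · intro m _ hm
            refine Finset.sum_eq_zero fun w _ => ?_
            rw [one_mul, star_sw_cons_ne hT hm.symm, map_zero, zero_smul]
          · intro h; exact absurd hl h
        rw [Finset.sum_congr rfl fun v _ => h2 v, ← Finset.smul_sum, ← Finset.sum_mul,
          ← Finset.mul_sum]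
        have h4 := ih M'
        rw [Ph] at h4
        rw [h4, ZZ, Finset.mul_sum, Finset.sum_mul, Finset.smul_sum]
        refine Finset.sum_congr rfl fun v _ => ?_
        rw [yv, smul_conj]

section Rep

variable {H : Type} [NormedAddCommGroup H] [InnerProductSpace ℂ H] [CompleteSpace H]
  {π : E →⋆ₐ[ℂ] (H →L[ℂ] H)} (hπ : Function.Injective π) {Ω : H} (hval : ∀ a, ⟪Ω, π a Ω⟫_ℂ = ρ a)

include hval in
lemma ip (a b : E) : ⟪π a Ω, π b Ω⟫_ℂ = ρ (star a * b) := by
  rw [← hval, map_mul, map_star, ContinuousLinearMap.star_eq_adjoint]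
  exact (ContinuousLinearMap.adjoint_inner_right (π a) Ω (π b Ω)).symm

omit [CompleteSpace H] in
lemma nsq (x : H) : ((‖x‖ ^ 2 : ℝ) : ℂ) = ⟪x, x⟫_ℂ := by
  rw [inner_self_eq_norm_sq_to_K]
  push_cast
  rfl

lemma adj_left (π : E →⋆ₐ[ℂ] (H →L[ℂ] H)) (y : E) (ζ η : H) :
    ⟪π (star y) ζ, η⟫_ℂ = ⟪ζ, π y η⟫_ℂ := by
  rw [map_star, ContinuousLinearMap.star_eq_adjoint, ContinuousLinearMap.adjoint_inner_left]

include hT hρ h0 in
lemma rho_sw (v : List ℕ) : ∀ w : List ℕ, ρ (star (Fock.sw T v) * Fock.sw T w) =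
    if v = w then 1 else 0 := by
  induction v with
  | nil =>
    intro w
    cases w with
    | nil => simp [hρ.one]
    | cons l w => simp [rho_left hρ h0]
  | cons k v ih =>
    intro w
    cases w with
    | nil =>
      rw [Fock.sw_nil, mul_one, st_star hρ.pos, Fock.sw_cons, rho_left hρ h0]
      simp
    | cons l w =>
      by_cases hkl : k = l
      · subst hkl
        rw [star_sw_cons_self hT, ih]
        simp
      · rw [star_sw_cons_ne hT hkl, map_zero]
        simp [hkl]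

/-- the family of word vectors is orthonormal -/
noncomputable def VV (π : E →⋆ₐ[ℂ] (H →L[ℂ] H)) (Ω : H) (T : ℕ → E) (S : Finset (List ℕ)) :
    EuclideanSpace ℂ S →L[ℂ] H :=
  LinearMap.toContinuousLinearMap
    { toFun := fun z => ∑ v : S, z v • π (Fock.sw T v) Ω
      map_add' := fun x y => by
        simp only [PiLp.add_apply, add_smul, Finset.sum_add_distrib]
      map_smul' := fun c x => by
        simp only [PiLp.smul_apply, smul_eq_mul, mul_smul, Finset.smul_sum, RingHom.id_apply] }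

lemma VV_apply (S : Finset (List ℕ)) (z : EuclideanSpace ℂ S) :
    VV π Ω T S z = ∑ v : S, z v • π (Fock.sw T v) Ω := rfl

lemma VV_single (S : Finset (List ℕ)) (v : S) :
    VV π Ω T S (EuclideanSpace.single v 1) = π (Fock.sw T v) Ω := by
  rw [VV_apply]
  rw [Finset.sum_eq_single v]
  · simp
  · intro w _ hw
    simp [hw]
  · simp

include hT hρ h0 hval in
lemma VV_norm (S : Finset (List ℕ)) (z : EuclideanSpace ℂ S) : ‖VV π Ω T S z‖ = ‖z‖ := by
  have hon : Orthonormal ℂ (fun v : S => π (Fock.sw T v) Ω) := by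
    rw [orthonormal_iff_ite]
    intro v w
    rw [ip hval, rho_sw hT hρ h0]
    by_cases hvw : v = w
    · rw [if_pos hvw, if_pos (congrArg _ hvw)]
    · rw [if_neg hvw, if_neg (fun h => hvw (Subtype.ext h))]
  have h1 : ((‖VV π Ω T S z‖ ^ 2 : ℝ) : ℂ) = ((‖z‖ ^ 2 : ℝ) : ℂ) := by
    rw [nsq, nsq, VV_apply]
    have := hon.inner_sum (fun v => z v) (fun v => z v) Finset.univ
    rw [this, PiLp.inner_apply]
    refine Finset.sum_congr rfl fun v _ => ?_
    exact mul_comm _ _
  have h2 : ‖VV π Ω T S z‖ ^ 2 = ‖z‖ ^ 2 := by exact_mod_cast h1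
  exact (sq_eq_sq₀ (norm_nonneg _) (norm_nonneg _)).mp h2

/-- the compression to the span of word vectors -/
noncomputable def th (π : E →⋆ₐ[ℂ] (H →L[ℂ] H)) (Ω : H) (T : ℕ → E) (S : Finset (List ℕ)) (a : E) :
    EuclideanSpace ℂ S →L[ℂ] EuclideanSpace ℂ S :=
  ContinuousLinearMap.adjoint (VV π Ω T S) ∘L (π a ∘L VV π Ω T S)

include hT hρ h0 hval in
lemma th_norm (S : Finset (List ℕ)) (a : E) : ‖th π Ω T S a‖ ≤ ‖a‖ := by
  have h1 : ‖VV π Ω T S‖ ≤ 1 :=
    ContinuousLinearMap.opNorm_le_bound _ zero_le_one fun z => by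
      rw [VV_norm hT hρ h0 hval, one_mul]
  calc ‖th π Ω T S a‖ ≤ ‖ContinuousLinearMap.adjoint (VV π Ω T S)‖ * ‖π a ∘L VV π Ω T S‖ :=
        ContinuousLinearMap.opNorm_comp_le _ _
    _ ≤ 1 * (‖π a‖ * ‖VV π Ω T S‖) := by
        gcongr
        · rw [LinearIsometryEquiv.norm_map]; exact h1
        · exact ContinuousLinearMap.opNorm_comp_le _ _
    _ ≤ 1 * (‖a‖ * 1) := by
        gcongr
        exact NonUnitalStarAlgHom.norm_apply_le π a
    _ = ‖a‖ := by ring

include hval in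
lemma mc_th (S : Finset (List ℕ)) (a : E) (v w : S) :
    mc (th π Ω T S a) v w = ρ (star (Fock.sw T v) * (a * Fock.sw T w)) := by
  rw [mc, th, ContinuousLinearMap.comp_apply, ContinuousLinearMap.adjoint_inner_right, VV_single,
    ContinuousLinearMap.comp_apply, VV_single, ← ip hval, map_mul]
  rfl

include hval in
lemma Ph_eq (n : ℕ) (r : ℝ) (M : ℕ) (a : E) :
    Ph hT ρ n r M M a = ∑ v : SS n M, ∑ w : SS n M, mc (th π Ω T (SS n M) a) v w •
      (yv hT n r v * star (yv hT n r w)) := by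
  simp only [mc_th hval]
  rw [Ph, ← Finset.sum_coe_sort]
  refine Finset.sum_congr rfl fun v _ => ?_
  rw [← Finset.sum_coe_sort]

include hπ hρ h0 hval in
/-- the approximating maps are contractive -/
lemma Ph_norm (n : ℕ) {r : ℝ} (h1 : r ^ 2 ≤ 1) (M : ℕ) (a : E) : ‖Ph hT ρ n r M M a‖ ≤ ‖a‖ := by
  have hπn : ∀ x, ‖π x‖ = ‖x‖ := fun x =>
    NonUnitalStarAlgHom.norm_map (π : E →⋆ₙₐ[ℂ] (H →L[ℂ] H)) hπ x
  rw [← hπn]
  refine ContinuousLinearMap.opNorm_le_bound _ (norm_nonneg _) fun ξ => ?_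
  -- the sums of squares
  have hsq : ∀ ζ : H, ∑ v : SS n M, ‖π (star (yv hT n r v)) ζ‖ ^ 2 ≤ ‖ζ‖ ^ 2 := by
    intro ζ
    have h2 : ((∑ v : SS n M, ‖π (star (yv hT n r v)) ζ‖ ^ 2 : ℝ) : ℂ) = ⟪ζ, π (ZZ hT n r M) ζ⟫_ℂ := by
      rw [ZZ, map_sum, sum_apply, inner_sum, Complex.ofReal_sum, ← Finset.sum_coe_sort (SS n M)]
      refine Finset.sum_congr rfl fun (v : SS n M) _ => ?_
      rw [nsq, adj_left, map_mul]
      rfl
    have h3 : ‖⟪ζ, π (ZZ hT n r M) ζ⟫_ℂ‖ ≤ ‖ζ‖ ^ 2 := by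
      calc ‖⟪ζ, π (ZZ hT n r M) ζ⟫_ℂ‖ ≤ ‖ζ‖ * ‖π (ZZ hT n r M) ζ‖ := norm_inner_le_norm _ _
        _ ≤ ‖ζ‖ * (1 * ‖ζ‖) := by
            gcongr
            refine ((π (ZZ hT n r M)).le_opNorm ζ).trans ?_
            gcongr
            exact (NonUnitalStarAlgHom.norm_apply_le π _).trans (ZZ_norm hT n h1 M)
        _ = ‖ζ‖ ^ 2 := by ring
    rw [← h2, Complex.norm_real] at h3
    exact (le_abs_self _).trans h3
  -- the sesquilinear form
  have hform : ∀ ζ : H, ‖⟪ζ, π (Ph hT ρ n r M M a) ξ⟫_ℂ‖ ≤ ‖a‖ * ‖ζ‖ * ‖ξ‖ := by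
    intro ζ
    have h2 : ⟪ζ, π (Ph hT ρ n r M M a) ξ⟫_ℂ = ∑ v : SS n M, ∑ w : SS n M,
        mc (th π Ω T (SS n M) a) v w *
          ⟪π (star (yv hT n r v)) ζ, π (star (yv hT n r w)) ξ⟫_ℂ := by
      rw [Ph_eq hT hval, map_sum, sum_apply, inner_sum]
      refine Finset.sum_congr rfl fun v _ => ?_
      rw [map_sum, sum_apply, inner_sum]
      refine Finset.sum_congr rfl fun w _ => ?_
      rw [map_smul, smul_apply, inner_smul_right, map_mul, adj_left]
      rfl
    rw [h2]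
    calc _ ≤ ‖th π Ω T (SS n M) a‖ * Real.sqrt (∑ v : SS n M, ‖π (star (yv hT n r v)) ζ‖ ^ 2)
          * Real.sqrt (∑ v : SS n M, ‖π (star (yv hT n r v)) ξ‖ ^ 2) := schur_bound _ _ _
      _ ≤ ‖a‖ * ‖ζ‖ * ‖ξ‖ := by
          gcongr
          · exact th_norm hT hρ h0 hval _ _
          · rw [← Real.sqrt_sq (norm_nonneg ζ)]
            exact Real.sqrt_le_sqrt (hsq ζ)
          · rw [← Real.sqrt_sq (norm_nonneg ξ)]
            exact Real.sqrt_le_sqrt (hsq ξ)
  by_cases hz : ‖π (Ph hT ρ n r M M a) ξ‖ = 0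
  · rw [hz]; positivity
  · have h2 := hform (π (Ph hT ρ n r M M a) ξ)
    rw [← nsq, Complex.norm_real, Real.norm_of_nonneg (by positivity)] at h2
    have h5 : 0 < ‖π (Ph hT ρ n r M M a) ξ‖ := lt_of_le_of_ne (norm_nonneg _) (Ne.symm hz)
    nlinarith

end Rep

section Conv

include hρ h0 in
/-- the error on monomials -/
lemma Ph_mon (n : ℕ) {r : ℝ} (hr0 : 0 ≤ r) (hr1 : r ≤ 1) (M : ℕ) {α β : List ℕ}
    (hα : ∀ l ∈ α, l < n) (hβ : ∀ l ∈ β, l < n) (hM : 2 * (α.length + β.length) ≤ M) :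
    ‖mon T α β - Ph hT ρ n r M M (mon T α β)‖
      ≤ (1 - r ^ (α.length + β.length)) + r ^ M := by
  obtain ⟨M₁, h1⟩ : ∃ M₁, M = M₁ + α.length := ⟨M - α.length, by omega⟩
  obtain ⟨M₂, h2⟩ : ∃ M₂, M = M₂ + β.length := ⟨M - β.length, by omega⟩
  have hr2 : r ^ 2 ≤ 1 := pow_le_one₀ hr0 hr1
  have e1 : Ph hT ρ n r M M (mon T α β)
      = ((r ^ (α.length + β.length) : ℝ) : ℂ) •
        (Fock.sw T α * ZZ hT n r (min M₁ M₂) * star (Fock.sw T β)) := by
    have e2 : Ph hT ρ n r M M (mon T α β)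
        = Ph hT ρ n r (M₁ + α.length) (M₂ + β.length)
          (Fock.sw T α * (1 * star (Fock.sw T β))) := by
      rw [← h1, ← h2, one_mul, mon]
    rw [e2, Ph_sw_left hT hρ h0 n r _ _ hα, Ph_sw_right hT hρ h0 n r _ _ hβ, Ph_one hT hρ h0,
      mul_smul_comm, smul_smul, mul_assoc]
    congr 1
    push_cast
    ring
  have hsα : ‖Fock.sw T α‖ ≤ 1 := norm_iso_le (star_sw_self hT α)
  have hsβ : ‖star (Fock.sw T β)‖ ≤ 1 := by
    rw [norm_star]; exact norm_iso_le (star_sw_self hT β)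
  have hx : 0 ≤ r ^ (α.length + β.length) := pow_nonneg hr0 _
  have hx1 : r ^ (α.length + β.length) ≤ 1 := pow_le_one₀ hr0 hr1
  have e3 : mon T α β - Ph hT ρ n r M M (mon T α β)
      = ((1 - r ^ (α.length + β.length) : ℝ) : ℂ) • (Fock.sw T α * star (Fock.sw T β))
        + ((r ^ (α.length + β.length) : ℝ) : ℂ) •
          (Fock.sw T α * (1 - ZZ hT n r (min M₁ M₂)) * star (Fock.sw T β)) := by
    rw [e1, mon, mul_sub, sub_mul, mul_one, smul_sub, Complex.ofReal_sub, sub_smul,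
      Complex.ofReal_one, one_smul]
    abel
  rw [e3]
  refine (norm_add_le _ _).trans (add_le_add ?_ ?_)
  · rw [norm_smul, Complex.norm_real, Real.norm_of_nonneg (by linarith)]
    calc (1 - r ^ (α.length + β.length)) * ‖Fock.sw T α * star (Fock.sw T β)‖
        ≤ (1 - r ^ (α.length + β.length)) * (1 * 1) := by
          have : 0 ≤ 1 - r ^ (α.length + β.length) := by linarith
          gcongr
          exact (norm_mul_le _ _).trans (mul_le_mul hsα hsβ (norm_nonneg _) zero_le_one)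
      _ = _ := by ring
  · rw [norm_smul, Complex.norm_real, Real.norm_of_nonneg hx]
    calc r ^ (α.length + β.length) * ‖Fock.sw T α * (1 - ZZ hT n r (min M₁ M₂)) *
          star (Fock.sw T β)‖ ≤ 1 * (1 * (r ^ 2) ^ (min M₁ M₂ + 1) * 1) := by
          gcongr
          refine (norm_mul_le _ _).trans (mul_le_mul ?_ hsβ (norm_nonneg _) (by positivity))
          exact (norm_mul_le _ _).trans (mul_le_mul hsα (err_norm hT n hr2 _) (norm_nonneg _)
            zero_le_one)
      _ = r ^ (2 * (min M₁ M₂ + 1)) := by rw [one_mul, one_mul, mul_one, ← pow_mul]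
      _ ≤ r ^ M := by
          apply pow_le_pow_of_le_one hr0 hr1
          rcases le_total M₁ M₂ with h | h
          · rw [min_eq_left h]; omega
          · rw [min_eq_right h]; omega

/-- the radii -/
noncomputable def rad (k : ℕ) : ℝ := 1 - 1 / ((k : ℝ) + 1)

lemma rad_nonneg (k : ℕ) : 0 ≤ rad k := by
  rw [rad, sub_nonneg, div_le_one (by positivity)]
  linarith [Nat.cast_nonneg (α := ℝ) k]

lemma rad_lt (k : ℕ) : rad k < 1 := by
  rw [rad]
  have : 0 < 1 / ((k : ℝ) + 1) := by positivity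
  linarith

lemma rad_tendsto : Tendsto rad atTop (𝓝 1) := by
  have := tendsto_one_div_add_atTop_nhds_zero_nat (𝕜 := ℝ)
  have h2 : Tendsto (fun k : ℕ => (1 : ℝ) - 1 / ((k : ℝ) + 1)) atTop (𝓝 (1 - 0)) :=
    tendsto_const_nhds.sub this
  rwa [sub_zero] at h2

lemma exists_len (k : ℕ) : ∃ M : ℕ, k ≤ M ∧ rad k ^ M ≤ 1 / ((k : ℝ) + 1) := by
  have h1 := tendsto_pow_atTop_nhds_zero_of_lt_one (rad_nonneg k) (rad_lt k)
  have h2 : ∀ᶠ M in atTop, rad k ^ M < 1 / ((k : ℝ) + 1) :=
    h1.eventually_lt_const (by positivity)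
  obtain ⟨M, hM1, hM2⟩ := (h2.and (eventually_ge_atTop k)).exists
  exact ⟨M, hM2, hM1.le⟩

/-- the lengths -/
noncomputable def len (k : ℕ) : ℕ := (exists_len k).choose

lemma le_len (k : ℕ) : k ≤ len k := (exists_len k).choose_spec.1
lemma rad_len (k : ℕ) : rad k ^ len k ≤ 1 / ((k : ℝ) + 1) := (exists_len k).choose_spec.2

/-- the approximating sequence -/
noncomputable def Pk (hT : IsCuntzFamily T) (ρ : E →ₗ[ℂ] ℂ) (k : ℕ) : E →ₗ[ℂ] E where
  toFun a := Ph hT ρ k (rad k) (len k) (len k) a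
  map_add' a b := Ph_add hT k _ _ _ a b
  map_smul' c a := Ph_smul hT k _ _ _ c a

include hρ h0 in
lemma Pk_mon (α β : List ℕ) :
    Tendsto (fun k => Pk hT ρ k (mon T α β)) atTop (𝓝 (mon T α β)) := by
  rw [tendsto_iff_norm_sub_tendsto_zero]
  have h1 : Tendsto (fun k : ℕ => (1 - rad k ^ (α.length + β.length)) + 1 / ((k : ℝ) + 1)) atTop
      (𝓝 0) := by
    have h2 : Tendsto (fun k => rad k ^ (α.length + β.length)) atTop (𝓝 (1 ^ (α.length + β.length)))
      := rad_tendsto.pow _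
    have h3 := (tendsto_const_nhds (x := (1 : ℝ))).sub h2
    have h4 := h3.add (tendsto_one_div_add_atTop_nhds_zero_nat (𝕜 := ℝ))
    rwa [one_pow, sub_self, add_zero] at h4
  refine squeeze_zero' (Eventually.of_forall fun k => norm_nonneg _) ?_ h1
  obtain ⟨N, hN⟩ : ∃ N, ∀ l ∈ α ++ β, l < N := by
    refine ⟨(α ++ β).foldr max 0 + 1, fun l hl => ?_⟩
    have : ∀ (L : List ℕ), ∀ l ∈ L, l ≤ L.foldr max 0 := by
      intro L
      induction L with
      | nil => simp
      | cons a L ih =>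
        intro l hl
        rcases List.mem_cons.mp hl with rfl | hl
        · exact le_max_left _ _
        · exact (ih l hl).trans (le_max_right _ _)
    exact Nat.lt_succ_of_le (this _ l hl)
  filter_upwards [eventually_ge_atTop N, eventually_ge_atTop (2 * (α.length + β.length))]
    with k hk1 hk2
  rw [norm_sub_rev]
  refine (Ph_mon hT hρ h0 k (rad_nonneg k) (rad_lt k).le (len k) ?_ ?_ (hk2.trans (le_len k))).trans
    ?_
  · exact fun l hl => (hN l (List.mem_append_left _ hl)).trans_le hk1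
  · exact fun l hl => (hN l (List.mem_append_right _ hl)).trans_le hk1
  · gcongr
    exact rad_len k

variable {H : Type} [NormedAddCommGroup H] [InnerProductSpace ℂ H] [CompleteSpace H]
  {π : E →⋆ₐ[ℂ] (H →L[ℂ] H)} (hπ : Function.Injective π) {Ω : H} (hval : ∀ a, ⟪Ω, π a Ω⟫_ℂ = ρ a)

include hρ h0 hπ hval in
lemma Pk_norm (k : ℕ) (a : E) : ‖Pk hT ρ k a‖ ≤ ‖a‖ :=
  Ph_norm hT hρ h0 hπ hval k (pow_le_one₀ (rad_nonneg k) (rad_lt k).le) _ a

include hρ h0 hπ hval in
lemma Pk_tendsto (hd : ∀ x : E, x ∈ closure (monSpan T : Set E)) (a : E) :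
    Tendsto (fun k => Pk hT ρ k a) atTop (𝓝 a) := by
  have hspan : ∀ b ∈ monSpan T, Tendsto (fun k => Pk hT ρ k b) atTop (𝓝 b) := by
    intro b hb
    rw [monSpan] at hb
    induction hb using Submodule.span_induction with
    | mem x hx =>
      obtain ⟨v, w, rfl⟩ := hx
      exact Pk_mon hT hρ h0 v w
    | zero => simp
    | add x y _ _ h1 h2 => simp only [map_add]; exact h1.add h2
    | smul c x _ h1 => simp only [map_smul]; exact h1.const_smul c
  rw [Metric.tendsto_atTop]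
  intro ε hε
  obtain ⟨b, hb, hab⟩ := Metric.mem_closure_iff.mp (hd a) (ε / 3) (by positivity)
  obtain ⟨N, hN⟩ := Metric.tendsto_atTop.mp (hspan b hb) (ε / 3) (by positivity)
  refine ⟨N, fun k hk => ?_⟩
  have h1 := hN k hk
  have h2 : dist (Pk hT ρ k a) (Pk hT ρ k b) ≤ dist a b := by
    rw [dist_eq_norm, dist_eq_norm, ← map_sub]
    exact Pk_norm hT hρ h0 hπ hval k _
  calc dist (Pk hT ρ k a) a ≤ dist (Pk hT ρ k a) (Pk hT ρ k b) + dist (Pk hT ρ k b) b + dist b a :=
        dist_triangle4 _ _ _ _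
    _ < ε / 3 + ε / 3 + ε / 3 := by
        rw [dist_comm b a]
        linarith
    _ = ε := by ring

include hT hρ h0 hπ hval in
/-- the approximation property in the vacuum representation -/
theorem factorApprox (hd : ∀ x : E, x ∈ closure (monSpan T : Set E)) : FactorApprox E := by
  intro F ε hε
  have h1 : ∀ᶠ k in atTop, ∀ a ∈ F, ‖a - Pk hT ρ k a‖ ≤ ε := by
    rw [Filter.eventually_all_finset]
    intro a _
    have := (Metric.tendsto_nhds.mp (Pk_tendsto hT hρ h0 hπ hval hd a)) ε hε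
    filter_upwards [this] with k hk
    rw [dist_comm, dist_eq_norm] at hk
    exact hk.le
  obtain ⟨k, hk⟩ := h1.exists
  refine ⟨SS k (len k), inferInstance, inferInstance, fun v => star (yv hT k (rad k) v),
    th π Ω T (SS k (len k)), th_norm hT hρ h0 hval _, ?_, ?_⟩
  · simp only [star_star]
    have := ZZ_norm hT k (r := rad k) (pow_le_one₀ (rad_nonneg k) (rad_lt k).le) (len k)
    rwa [ZZ, ← Finset.sum_coe_sort] at this
  · intro a ha
    have := hk a ha
    rw [Pk, LinearMap.coe_mk, AddHom.coe_mk, Ph_eq hT hval] at this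
    simpa only [star_star] using this

end Conv

end

end Pool.Agent.V11109.NN
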