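import Pool.Agent.V11109.NN.Approx
import Pool.Agent.V11109.Free.VacPure

/-!
# Two infinite free powers of `O_∞` which are not isomorphic
-/

set_option autoImplicit false
set_option linter.style.haveILetI false
set_option linter.unusedSectionVars false

open scoped ComplexOrder InnerProductSpace

namespace Pool.Agent.V11109.NN

open Pool.Agent.V11109.Free Pool.Agent.V11109.Conj Pool.Agent.V11109.Fock Pool.Agent.V11109.PureExt

/-- the approximation property is invariant under isomorphisms -/
theorem factorApprox_congr {D E : Type} [CStarAlgebra D] [CStarAlgebra E] (Φ : D ≃⋆ₐ[ℂ] E)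
    (hD : FactorApprox D) : FactorApprox E := by
  classical
  have hn : ∀ x, ‖Φ x‖ = ‖x‖ := fun x =>
    NonUnitalStarAlgHom.norm_map (Φ : D →⋆ₐ[ℂ] E) Φ.injective x
  have hn' : ∀ x, ‖Φ.symm x‖ = ‖x‖ := fun x => by rw [← hn, Φ.apply_symm_apply]
  intro F ε hε
  obtain ⟨κ, k1, k2, x, θ, hθ, hx, happ⟩ := hD (F.image Φ.symm) ε hε
  refine ⟨κ, k1, k2, fun v => Φ (x v), fun a => θ (Φ.symm a), fun a => ?_, ?_, ?_⟩
  · rw [← hn' a]; exact hθ _
  · have : ∑ v, star (Φ (x v)) * Φ (x v) = Φ (∑ v, star (x v) * x v) := by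
      rw [map_sum]
      exact Finset.sum_congr rfl fun v _ => by rw [map_mul, map_star]
    rw [this, hn]
    exact hx
  · intro a ha
    have h1 := happ (Φ.symm a) (Finset.mem_image_of_mem _ ha)
    have : a - ∑ v, ∑ w, mc (θ (Φ.symm a)) v w • (star (Φ (x v)) * Φ (x w))
        = Φ (Φ.symm a - ∑ v, ∑ w, mc (θ (Φ.symm a)) v w • (star (x v) * x w)) := by
      rw [map_sub, Φ.apply_symm_apply, map_sum]
      congr 1
      refine Finset.sum_congr rfl fun v _ => ?_
      rw [map_sum]
      exact Finset.sum_congr rfl fun w _ => by rw [map_smul, map_mul, map_star]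
    rw [this, hn]
    exact h1

section Power

variable {A : Type} [CStarAlgebra A] {s : ℕ → A} {ω : A →ₗ[ℂ] ℂ} (hs : IsCuntzFamily s)
  (h0 : ∀ k, ω (s k * star (s k)) = 0)
  {D : Type} [CStarAlgebra D] {ρ : D →ₗ[ℂ] ℂ} {e : ℕ → A →⋆ₐ[ℂ] D}
  (h : IsReducedFreeProd (fun _ : ℕ => A) (fun _ => ω) ρ e)

/-- the combined family of isometries -/
def TT (e : ℕ → A →⋆ₐ[ℂ] D) (s : ℕ → A) (l : ℕ) : D := e l.unpair.1 (s l.unpair.2)

lemma TT_pair (e : ℕ → A →⋆ₐ[ℂ] D) (s : ℕ → A) (i k : ℕ) : TT e s (Nat.pair i k) = e i (s k) := by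
  rw [TT, Nat.unpair_pair]

include h h0 in
lemma om_left (k : ℕ) (a : A) : ω (s k * a) = 0 := by
  have hω : IsState ω := t_state h 0
  have h1 := cs_le' hω.pos (s k) a
  have h2 : nn ω (star (s k)) = 0 := by
    rw [nn, star_star, h0]; simp
  rw [h2, zero_mul] at h1
  exact norm_le_zero_iff.mp h1

include h h0 in
/-- words multiplied by an isometry -/
lemma mul_ev (j k : ℕ) {w : List (Σ _ : ℕ, A)} (hw : Red (fun _ => ω) w) :
    ∃ w', Red (fun _ => ω) w' ∧ Head j w' ∧ e j (s k) * ev e w = ev e w' := by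
  rcases head_or_notHead j w with hj | hj
  · cases w with
    | nil => obtain ⟨z, hz, _⟩ := hj; simp at hz
    | cons z w =>
      obtain ⟨i, b⟩ := z
      obtain ⟨z, hz, hzj⟩ := hj
      simp only [List.head?_cons, Option.mem_def, Option.some.injEq] at hz
      subst hz
      simp only at hzj
      subst hzj
      refine ⟨⟨i, s k * b⟩ :: w, hw.tail.cons (om_left h0 h k b) hw.notHead, ⟨_, rfl, rfl⟩, ?_⟩
      rw [ev_cons, ev_cons, map_mul, mul_assoc]
  · refine ⟨⟨j, s k⟩ :: w, hw.cons ?_ hj, ⟨_, rfl, rfl⟩, by rw [ev_cons]⟩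
    have := om_left h0 h k 1
    rwa [mul_one] at this

include h h0 in
lemma ortho_copies {i j : ℕ} (hij : i ≠ j) (k l : ℕ) : star (e i (s k)) * e j (s l) = 0 := by
  apply h.gns_faithful
  set z := star (e i (s k)) * e j (s l) with hz
  have hnn : ∀ x ∈ WS (fun _ => ω) e, nn ρ (z * x) = 0 := by
    intro x hx
    rw [WS] at hx
    induction hx using Submodule.span_induction with
    | mem x hx =>
      obtain ⟨w, hw, rfl⟩ := hx
      obtain ⟨w', hw', hj, hww⟩ := mul_ev h0 h j l hw
      rw [hz, mul_assoc, hww, ← map_star, nn_cons h hw' (hj.notHead hij.symm)]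
      have h2 : nn ω (star (s k)) = 0 := by
        rw [nn, star_star, h0]; simp
      rw [h2, zero_mul]
    | zero => rw [mul_zero]; exact nn_zero
    | add x y _ _ h1 h2 =>
      rw [mul_add]
      have := nn_add h.state.pos (z * x) (z * y)
      rw [h1, h2, add_zero] at this
      exact le_antisymm this (nn_nonneg _)
    | smul c x _ h1 => rw [mul_smul_comm, nn_smul h.state.pos, h1, mul_zero]
  have hcl : IsClosed {x : D | nn ρ (z * x) = 0} := by
    have : Continuous fun x => nn ρ (z * x) := (nn_continuous h.state).comp (continuous_const_mul z)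
    exact isClosed_eq this continuous_const
  intro x
  have h1 : nn ρ (z * x) = 0 := hcl.closure_subset_iff.mpr hnn (mem_closure_WS h x)
  rw [← nn_sq' h.state.pos, h1]
  simp

include h h0 hs in
lemma TT_cuntz : IsCuntzFamily (TT e s) where
  iso l := by rw [TT, ← map_star, ← map_mul, hs.iso, map_one]
  orth l m hlm := by
    rw [TT, TT]
    by_cases h1 : l.unpair.1 = m.unpair.1
    · have h2 : l.unpair.2 ≠ m.unpair.2 := by
        intro h2
        apply hlm
        rw [← Nat.pair_unpair l, ← Nat.pair_unpair m, h1, h2]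
      rw [h1, ← map_star, ← map_mul, hs.orth _ _ h2, map_zero]
    · exact ortho_copies h0 h h1 _ _

include h h0 in
lemma TT_zero (l : ℕ) : ρ (TT e s l * star (TT e s l)) = 0 := by
  rw [TT, ← map_star, ← map_mul, h.marginal]
  exact h0 _

omit h in
lemma sw_comp {R : Type} [Ring R] [StarRing R] (T : ℕ → R) (f : ℕ → ℕ) (v : List ℕ) :
    Fock.sw (fun k => T (f k)) v = Fock.sw T (v.map f) := by
  induction v with
  | nil => rfl
  | cons k v ih => rw [Fock.sw_cons, List.map_cons, Fock.sw_cons, ih]

include h h0 hs in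
lemma TT_dense (hgen : Generates s) (x : D) : x ∈ closure (monSpan (TT e s) : Set D) := by
  have hT := TT_cuntz hs h0 h
  have h1 : (StarAlgebra.adjoin ℂ (⋃ j, Set.range (e j))) ≤ (alg hT).topologicalClosure := by
    refine StarAlgebra.adjoin_le ?_
    intro y hy
    obtain ⟨j, a, rfl⟩ := Set.mem_iUnion.mp hy
    have h2 := mem_closure_of_generates (e j) (t := fun k => TT e s (Nat.pair j k)) hs hgen
      (fun k => (TT_pair e s j k).symm) a
    rw [SetLike.mem_coe, ← SetLike.mem_coe, StarSubalgebra.topologicalClosure_coe]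
    refine closure_mono ?_ h2
    intro z hz
    have hz' : z ∈ monSpan (fun k => TT e s (Nat.pair j k)) := hz
    show z ∈ monSpan (TT e s)
    refine (Submodule.span_le.mpr ?_) hz'
    rintro _ ⟨v, w, rfl⟩
    refine Submodule.subset_span ⟨v.map (Nat.pair j), w.map (Nat.pair j), ?_⟩
    rw [mon, mon, sw_comp (TT e s) (Nat.pair j) v, sw_comp (TT e s) (Nat.pair j) w]
  have h2 := StarSubalgebra.topologicalClosure_minimal h1
    (StarSubalgebra.isClosed_topologicalClosure _)
  rw [h.generating] at h2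
  have h3 : x ∈ (alg hT).topologicalClosure := h2 StarSubalgebra.mem_top
  rw [← SetLike.mem_coe, StarSubalgebra.topologicalClosure_coe] at h3
  exact h3

include h h0 hs in
/-- free powers of the vacuum state have the approximation property -/
theorem factorApprox_power (hgen : Generates s) : FactorApprox D := by
  obtain ⟨H, i1, i2, i3, π, Ω, hg⟩ := exists_GNS h.state
  exact factorApprox (TT_cuntz hs h0 h) h.state (TT_zero h0 h) (hg.injective h) hg.val
    (TT_dense hs h0 h hgen)

end Power

section Two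

variable {A : Type} [CStarAlgebra A] {s : ℕ → A} (hs : IsCuntzInfty s)

/-- unitaries from projections -/
lemma refl_unitary {R : Type} [Ring R] [StarRing R] [Algebra ℂ R] [StarModule ℂ R] {p : R}
    (h1 : star p = p) (h2 : p * p = p) : star ((2 : ℂ) • p - 1) * ((2 : ℂ) • p - 1) = 1 := by
  have h3 : star ((2 : ℂ) • p - 1) = (2 : ℂ) • p - 1 := by
    rw [star_sub, star_smul, star_one, h1]
    congr 2
    simp
  rw [h3, sub_mul, mul_sub, smul_mul_assoc, mul_smul_comm, h2, one_mul, mul_one, smul_smul]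
  module

include hs in
/-- There are a state `ω₁` which vanishes on the range projections of the generators and a state
`ω₂` with a unitary of expectation zero in its centralizer. -/
theorem exists_states' : ∃ ω₁ ω₂ : A →ₗ[ℂ] ℂ, IsState ω₁ ∧ IsState ω₂ ∧
    (∀ k, ω₁ (s k * star (s k)) = 0) ∧
    ∃ u : A, star u * u = 1 ∧ InCentralizer ω₂ u ∧ ω₂ u = 0 := by
  obtain ⟨ι, hι⟩ := exists_toFock hs
  have e1 : ι (s 0 * star (s 0)) = pp := by rw [map_mul, map_star, hι, pp]
  refine ⟨vacL.comp ι.toAlgHom.toLinearMap, mixL.comp ι.toAlgHom.toLinearMap,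
    state_comp vacL_state ι, state_comp mixL_state ι, ?_,
    (2 : ℂ) • (s 0 * star (s 0)) - 1, ?_, ?_, ?_⟩
  · intro k
    show vacL (ι (s k * star (s k))) = 0
    rw [map_mul, map_star, hι, vacL_S]
  · apply refl_unitary
    · rw [star_mul, star_star]
    · calc s 0 * star (s 0) * (s 0 * star (s 0)) = s 0 * (star (s 0) * s 0) * star (s 0) := by
            simp only [mul_assoc]
        _ = _ := by rw [hs.family.iso, mul_one]
  · intro x
    show mixL (ι (((2 : ℂ) • (s 0 * star (s 0)) - 1) * x))
      = mixL (ι (x * ((2 : ℂ) • (s 0 * star (s 0)) - 1)))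
    rw [map_mul ι, map_mul ι x, map_sub, map_smul, map_one, e1, sub_mul, mul_sub, one_mul, mul_one,
      smul_mul_assoc, mul_smul_comm, map_sub, map_sub, map_smul, map_smul, pp_centralizer]
  · show mixL (ι ((2 : ℂ) • (s 0 * star (s 0)) - 1)) = 0
    rw [map_sub, map_smul, map_one, e1, map_sub, map_smul, mixL_pp, mixL_state.one]
    norm_num

/-- free powers of a state with a unitary of expectation zero in its centralizer do not have the
approximation property -/
theorem not_factorApprox_power {ω : A →ₗ[ℂ] ℂ} {D : Type} [CStarAlgebra D] {ρ : D →ₗ[ℂ] ℂ}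
    {e : ℕ → A →⋆ₐ[ℂ] D} (h : IsReducedFreeProd (fun _ : ℕ => A) (fun _ => ω) ρ e) {u : A}
    (hu : star u * u = 1) (hc : InCentralizer ω u) (h0 : ω u = 0) : ¬ FactorApprox D :=
  not_factorApprox h (Finset.range 9) (Finset.card_range 9) (fun _ => u) (fun _ => hu)
    (fun _ => hc) (fun _ => h0)

end Two

end Pool.Agent.V11109.NN
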