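import Pool.Agent.V11109.NN.Schur
import Pool.Agent.V11109.Free.Pure
import Pool.Agent.V11109.Free.Hilb

/-!
# Failure of the completely positive approximation property for free powers of states with a
nontrivial centralizer
-/

set_option autoImplicit false
set_option linter.style.haveILetI false
set_option linter.unusedSectionVars false

open scoped ComplexOrder InnerProductSpace

namespace Pool.Agent.V11109.NN

open Pool.Agent.V11109.Free

/-- The identity of `D` is approximated in the point norm topology by maps `ψ ∘ θ`, where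
`θ : D → M_κ(ℂ)` is contractive and linear and `ψ T = ∑ T v w • (x v)^* (x w)` is a completely
positive contraction from `M_κ(ℂ)` to `D`. -/
def FactorApprox (D : Type) [CStarAlgebra D] : Prop :=
  ∀ (F : Finset D) (ε : ℝ), 0 < ε → ∃ (κ : Type) (_ : Fintype κ) (_ : DecidableEq κ) (x : κ → D)
    (θ : D → EuclideanSpace ℂ κ →L[ℂ] EuclideanSpace ℂ κ), (∀ a, ‖θ a‖ ≤ ‖a‖) ∧
    ‖∑ v, star (x v) * x v‖ ≤ 1 ∧
    ∀ a ∈ F, ‖a - ∑ v, ∑ w, mc (θ a) v w • (star (x v) * x w)‖ ≤ ε

section Words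

variable {J : Type} {D : J → Type} [∀ j, CStarAlgebra (D j)]
  {t : ∀ j, D j →ₗ[ℂ] ℂ} {A : Type} [CStarAlgebra A] {φ : A →ₗ[ℂ] ℂ}
  {e : ∀ j, D j →⋆ₐ[ℂ] A} (h : IsReducedFreeProd D t φ e)

include h

/-- words with different index sequences are orthogonal -/
lemma phi_words (v : List (Σ j, D j)) : ∀ w : List (Σ j, D j), Red t v → Red t w →
    v.map Sigma.fst ≠ w.map Sigma.fst → φ (star (ev e v) * ev e w) = 0 := by
  induction v with
  | nil =>
    intro w _ hw hne
    rw [ev_nil, star_one, one_mul]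
    exact phi_ev h hw (by rintro rfl; exact hne rfl)
  | cons z v ih =>
    intro w hv hw hne
    cases w with
    | nil =>
      have h1 : φ (star (ev e (z :: v))) = 0 := by
        rw [st_star h.state.pos, phi_ev h hv (by simp), star_zero]
      rw [ev_nil, mul_one]
      exact h1
    | cons y w =>
      obtain ⟨i, a⟩ := z
      obtain ⟨j, b⟩ := y
      by_cases hij : i = j
      · subst hij
        have hne' : v.map Sigma.fst ≠ w.map Sigma.fst := by
          intro h1
          apply hne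
          simp [h1]
        have e1 : star (ev e (⟨i, a⟩ :: v)) * ev e (⟨i, b⟩ :: w)
            = t i (star a * b) • (star (ev e v) * ev e w)
              + star (ev e v) * ev e (⟨i, ctr t i (star a * b)⟩ :: w) := by
          rw [ev_cons, ev_cons, ev_cons, star_mul]
          have e2 : star (ev e v) * star (e i a) * (e i b * ev e w)
              = star (ev e v) * (e i (star a * b) * ev e w) := by
            rw [map_mul (e i), map_star]
            simp only [mul_assoc]
          rw [e2, e_ctr (t := t) i (star a * b), add_mul, mul_add, smul_mul_assoc, one_mul,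
            mul_smul_comm]
        rw [e1, map_add, map_smul, ih w hv.tail hw.tail hne', smul_zero, zero_add]
        exact ih' h hv.tail hv.notHead
          (hw.tail.cons (t_ctr (t_state h) i (star a * b)) hw.notHead)
      · refine phi_star_mul h hv hw (j := i) ⟨_, rfl, rfl⟩ ?_
        intro z hz
        simp only [List.head?_cons, Option.mem_def, Option.some.injEq] at hz
        subst hz
        exact fun h' => hij h'.symm
where
  ih' (h : IsReducedFreeProd D t φ e) {i : J} {v : List (Σ j, D j)} (hv : Red t v)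
      (hvi : NotHead i v) {c : D i} {w : List (Σ j, D j)} (hw : Red t (⟨i, c⟩ :: w)) :
      φ (star (ev e v) * ev e (⟨i, c⟩ :: w)) = 0 := by
    have h1 := phi_star_mul h hw hv (j := i) ⟨_, rfl, rfl⟩ hvi
    have h2 : φ (star (star (ev e (⟨i, c⟩ :: w)) * ev e v)) = 0 := by
      rw [st_star h.state.pos, h1, star_zero]
    rwa [star_mul, star_star] at h2

omit h

/-- the last letter of `w` is from `j` -/
def Last (j : J) (w : List (Σ j, D j)) : Prop := ∃ z ∈ w.getLast?, z.1 = j

include h in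
lemma phi_last {j : J} {v w : List (Σ j, D j)} (hv : Red t v) (hw : Red t w)
    (hvj : Last j v) (hwj : ¬ Last j w) : φ (star (ev e v) * ev e w) = 0 := by
  apply phi_words h v w hv hw
  intro heq
  apply hwj
  obtain ⟨z, hz, rfl⟩ := hvj
  have h1 := congrArg List.getLast? heq
  rw [List.getLast?_map, List.getLast?_map] at h1
  rw [Option.mem_def] at hz
  rw [hz, Option.map_some] at h1
  obtain ⟨y, hy, hy'⟩ := Option.map_eq_some_iff.mp h1.symm
  exact ⟨y, hy, hy'⟩

variable {H : Type} [NormedAddCommGroup H] [InnerProductSpace ℂ H]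
    [CompleteSpace H] {π : A →⋆ₐ[ℂ] (H →L[ℂ] H)} {Ω : H} (hg : GNS φ π Ω)

/-- the closed span of the words which end in `j` -/
noncomputable def LL (t : ∀ j, D j →ₗ[ℂ] ℂ) (e : ∀ j, D j →⋆ₐ[ℂ] A) (π : A →⋆ₐ[ℂ] (H →L[ℂ] H))
    (Ω : H) (j : J) : Submodule ℂ H :=
  (Submodule.span ℂ {x | ∃ w, Red t w ∧ Last j w ∧ x = π (ev e w) Ω}).topologicalClosure

noncomputable instance (j : J) : (LL t e π Ω j).HasOrthogonalProjection := by
  haveI : CompleteSpace (LL t e π Ω j) :=
    (Submodule.isClosed_topologicalClosure _).completeSpace_coe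
  infer_instance

lemma mem_LL {j : J} {w : List (Σ j, D j)} (hw : Red t w) (hj : Last j w) :
    π (ev e w) Ω ∈ LL t e π Ω j :=
  Submodule.le_topologicalClosure _ (Submodule.subset_span ⟨w, hw, hj, rfl⟩)

include h hg in
lemma notLast_mem_ortho {j : J} {w : List (Σ j, D j)} (hw : Red t w) (hj : ¬ Last j w) :
    π (ev e w) Ω ∈ (LL t e π Ω j)ᗮ := by
  apply ortho_of_gen
  rintro _ ⟨v, hv, hvj, rfl⟩
  rw [hg.inner]
  exact phi_last h hv hw hvj hj

include h hg in
lemma LL_ortho {i j : J} (hij : i ≠ j) : LL t e π Ω i ⟂ LL t e π Ω j := by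
  rw [Submodule.isOrtho_iff_le]
  apply Submodule.topologicalClosure_minimal _ _ (Submodule.isClosed_orthogonal _)
  rw [Submodule.span_le]
  rintro _ ⟨w, hw, hwi, rfl⟩
  refine notLast_mem_ortho h hg hw ?_
  rintro ⟨z, hz, hzj⟩
  obtain ⟨y, hy, hyi⟩ := hwi
  rw [Option.mem_def] at hz hy
  rw [hz, Option.some.injEq] at hy
  subst hy
  exact hij (hyi.symm.trans hzj)

include h hg in
lemma last_approx {j : J} {ξ : H} (hξ : ξ ∈ (LL t e π Ω j)ᗮ) :
    ξ ∈ (Submodule.span ℂ {x | ∃ w, Red t w ∧ ¬ Last j w ∧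
      x = π (ev e w) Ω}).topologicalClosure := by
  set L := (Submodule.span ℂ {x | ∃ w, Red t w ∧ ¬ Last j w ∧
      x = π (ev e w) Ω}).topologicalClosure with hL
  haveI : CompleteSpace L := (Submodule.isClosed_topologicalClosure _).completeSpace_coe
  have h1 : ξ - L.starProjection ξ = 0 := by
    apply hg.cyc
    intro a
    have hcont : Continuous fun a => ⟪ξ - L.starProjection ξ, π a Ω⟫_ℂ := by
      have hπ : Continuous fun a => π a Ω := by
        have h2 : Continuous π :=
          AddMonoidHomClass.continuous_of_bound π 1 (fun x => by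
            rw [one_mul, hg.norm_map h])
        exact (ContinuousLinearMap.apply ℂ H Ω).continuous.comp h2
      exact continuous_const.inner hπ
    have hcl : IsClosed {a : A | ⟪ξ - L.starProjection ξ, π a Ω⟫_ℂ = 0} :=
      isClosed_eq hcont continuous_const
    refine hcl.closure_subset_iff.mpr ?_ (mem_closure_WS h a)
    intro a ha
    have ha' : a ∈ WS t e := ha
    clear ha
    rw [WS] at ha'
    simp only [Set.mem_ofPred_eq]
    induction ha' using Submodule.span_induction with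
    | mem a ha =>
      obtain ⟨w, hw, rfl⟩ := ha
      by_cases hj : Last j w
      · have h3 : L.starProjection ξ ∈ (LL t e π Ω j)ᗮ := by
          have h4 : L ≤ (LL t e π Ω j)ᗮ := by
            apply Submodule.topologicalClosure_minimal _ _ (Submodule.isClosed_orthogonal _)
            rw [Submodule.span_le]
            rintro _ ⟨v, hv, hvj, rfl⟩
            exact notLast_mem_ortho h hg hv hvj
          exact h4 (Submodule.starProjection_apply_mem _ _)
        exact Submodule.inner_left_of_mem_orthogonal (mem_LL hw hj)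
          (Submodule.sub_mem _ hξ h3)
      · exact Submodule.starProjection_inner_eq_zero _ _
          (Submodule.le_topologicalClosure _ (Submodule.subset_span ⟨w, hw, hj, rfl⟩))
    | zero => simp
    | add x y _ _ h1 h2 => rw [map_add, add_apply, inner_add_right, h1, h2, add_zero]
    | smul c x _ h1 => rw [map_smul, smul_apply, inner_smul_right, h1, mul_zero]
  rw [sub_eq_zero] at h1
  rw [h1]
  exact Submodule.starProjection_apply_mem _ _

include h hg in
/-- right multiplication by a unitary of the centralizer -/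
lemma exists_right {j : J} {u : D j} (hu : star u * u = 1) (hc : InCentralizer (t j) u)
    (h0 : t j u = 0) : ∃ R : H →L[ℂ] H, (∀ a, R (π a Ω) = π (a * star (e j u)) Ω) ∧
      (∀ ξ, ‖R ξ‖ ≤ ‖ξ‖) ∧ ∀ ξ ∈ (LL t e π Ω j)ᗮ, R ξ ∈ LL t e π Ω j := by
  let f : A →ₗ[ℂ] H :=
    { toFun := fun a => π a Ω
      map_add' := fun a b => by rw [map_add, add_apply]
      map_smul' := fun c a => by rw [map_smul, smul_apply, RingHom.id_apply] }
  let g : A →ₗ[ℂ] H :=
    { toFun := fun a => π (a * star (e j u)) Ω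
      map_add' := fun a b => by rw [add_mul, map_add, add_apply]
      map_smul' := fun c a => by
        rw [smul_mul_assoc, map_smul, smul_apply, RingHom.id_apply] }
  have hcA : InCentralizer φ (e j u) := centralizer_free h hc
  have hnorm : ∀ a, ‖g a‖ = ‖f a‖ := by
    intro a
    show ‖π (a * star (e j u)) Ω‖ = ‖π a Ω‖
    rw [hg.norm h.state, hg.norm h.state, nn, nn]
    congr 2
    rw [star_mul, star_star]
    have e1 : e j u * star a * (a * star (e j u)) = e j u * (star a * a * star (e j u)) := by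
      simp only [mul_assoc]
    rw [e1, hcA, mul_assoc, ← map_star, ← map_mul, hu, map_one, mul_one]
  have hdense : DenseRange f := hg.dense
  have hC : ∃ C, ∀ x, ‖g x‖ ≤ C * ‖f x‖ := ⟨1, fun x => by rw [one_mul, hnorm]⟩
  have hR : ∀ a, g.extendOfNorm f (f a) = g a :=
    fun a => LinearMap.extendOfNorm_eq hdense hC a
  refine ⟨g.extendOfNorm f, hR, fun ξ => ?_, fun ξ hξ => ?_⟩
  · have := LinearMap.norm_extendOfNorm_apply_le (f := g) hdense 1
      (fun x => by rw [one_mul, hnorm]) ξ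
    rwa [one_mul] at this
  · have h1 := last_approx h hg hξ
    have hcl : IsClosed {η : H | g.extendOfNorm f η ∈ LL t e π Ω j} :=
      (Submodule.isClosed_topologicalClosure _).preimage (g.extendOfNorm f).continuous
    refine hcl.closure_subset_iff.mpr ?_ h1
    intro η hη
    have hη' : η ∈ Submodule.span ℂ {x | ∃ w, Red t w ∧ ¬ Last j w ∧ x = π (ev e w) Ω} := hη
    clear hη
    simp only [Set.mem_ofPred_eq]
    induction hη' using Submodule.span_induction with
    | mem x hx =>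
      obtain ⟨w, hw, hj, rfl⟩ := hx
      have e1 : g.extendOfNorm f (π (ev e w) Ω) = π (ev e (w ++ [⟨j, star u⟩])) Ω := by
        have := hR (ev e w)
        change g.extendOfNorm f (π (ev e w) Ω) = π (ev e w * star (e j u)) Ω at this
        rw [this, ev_append, ev_cons, ev_nil, mul_one, map_star (e j)]
      rw [e1]
      refine mem_LL ⟨?_, ?_⟩ ⟨⟨j, star u⟩, by simp, rfl⟩
      · rw [List.isChain_append]
        refine ⟨hw.1, List.isChain_singleton _, ?_⟩
        intro x hx y hy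
        simp only [List.head?_cons, Option.mem_def, Option.some.injEq] at hy
        subst hy
        exact fun h' => hj ⟨x, hx, h'⟩
      · intro z hz
        rcases List.mem_append.mp hz with hz | hz
        · exact hw.2 z hz
        · rw [List.mem_singleton] at hz
          subst hz
          show t j (star u) = 0
          rw [st_star (t_state h j).pos, h0, star_zero]
    | zero => rw [map_zero]; exact Submodule.zero_mem _
    | add x y _ _ h1 h2 => rw [map_add]; exact Submodule.add_mem _ h1 h2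
    | smul c x _ h1 => rw [map_smul]; exact Submodule.smul_mem _ _ h1

include h in
/-- Nine free unitaries in the centralizers exclude the approximation property. -/
theorem not_factorApprox (s : Finset J) (hs : s.card = 9) (u : ∀ j, D j)
    (hu : ∀ j, star (u j) * u j = 1) (hc : ∀ j, InCentralizer (t j) (u j))
    (h0 : ∀ j, t j (u j) = 0) : ¬ FactorApprox A := by
  classical
  intro hA
  obtain ⟨H, i1, i2, i3, π, Ω, hg⟩ := exists_GNS h.state
  choose R hR1 hR2 hR3 using fun j => exists_right h hg (hu j) (hc j) (h0 j)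
  obtain ⟨κ, k1, k2, x, θ, hθ, hx, happ⟩ := hA (s.image fun j => e j (u j)) (1 / 10) (by norm_num)
  set a : J → A := fun j => e j (u j) with ha
  have hau : ∀ j, star (a j) * a j = 1 := fun j => by
    rw [ha]; show star (e j (u j)) * e j (u j) = 1
    rw [← map_star, ← map_mul, hu, map_one]
  have hac : ∀ j, InCentralizer φ (a j) := fun j => centralizer_free h (hc j)
  have hone : ∀ j, φ (a j * star (a j)) = 1 := fun j => by
    rw [hac j, hau, h.state.one]
  have hnorm1 : ∀ j, ‖a j‖ ≤ 1 := by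
    intro j
    have h1 : ‖a j‖ * ‖a j‖ ≤ 1 := by
      rw [← CStarRing.norm_star_mul_self, hau]
      rcases subsingleton_or_nontrivial A with hs | hs
      · rw [Subsingleton.elim (1 : A) 0, norm_zero]; exact zero_le_one
      · rw [norm_one]
    nlinarith [norm_nonneg (a j)]
  set ξ : κ → H := fun v => π (x v) Ω with hξ
  have hξ1 : ∑ v, ‖ξ v‖ ^ 2 ≤ 1 := by
    have h1 : ∀ v, ‖ξ v‖ ^ 2 = (φ (star (x v) * x v)).re := by
      intro v
      rw [hξ]
      show ‖π (x v) Ω‖ ^ 2 = _
      rw [hg.norm h.state, nn_sq h.state.pos]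
    rw [Finset.sum_congr rfl fun v _ => h1 v, ← Complex.re_sum, ← map_sum]
    exact (Complex.re_le_norm _).trans ((norm_apply_le h.state _).trans hx)
  set P : J → H → H := fun j η => (LL t e π Ω j).starProjection η with hP
  have hort : ∀ i j, i ≠ j → LL t e π Ω i ⟂ LL t e π Ω j := fun i j hij => LL_ortho h hg hij
  -- the lower bound
  have hlow : ∀ j ∈ s, 9 / 10 ≤ ‖∑ v, ∑ w, mc (θ (a j)) v w * ⟪ξ v, R j (ξ w)⟫_ℂ‖ := by
    intro j hj
    have h1 := happ (a j) (Finset.mem_image_of_mem _ hj)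
    have h2 : ∑ v, ∑ w, mc (θ (a j)) v w * ⟪ξ v, R j (ξ w)⟫_ℂ
        = φ ((∑ v, ∑ w, mc (θ (a j)) v w • (star (x v) * x w)) * star (a j)) := by
      rw [Finset.sum_mul, map_sum]
      refine Finset.sum_congr rfl fun v _ => ?_
      rw [Finset.sum_mul, map_sum]
      refine Finset.sum_congr rfl fun w _ => ?_
      rw [smul_mul_assoc, map_smul, smul_eq_mul]
      congr 1
      rw [hξ]
      show ⟪π (x v) Ω, R j (π (x w) Ω)⟫_ℂ = _
      rw [hR1, hg.inner, mul_assoc]
    have h3 : ‖φ ((a j - ∑ v, ∑ w, mc (θ (a j)) v w • (star (x v) * x w)) * star (a j))‖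
        ≤ 1 / 10 := by
      calc _ ≤ ‖(a j - ∑ v, ∑ w, mc (θ (a j)) v w • (star (x v) * x w)) * star (a j)‖ :=
            norm_apply_le h.state _
        _ ≤ ‖a j - ∑ v, ∑ w, mc (θ (a j)) v w • (star (x v) * x w)‖ * ‖star (a j)‖ :=
            norm_mul_le _ _
        _ ≤ 1 / 10 * 1 := by
            gcongr
            rw [norm_star]
            exact hnorm1 j
        _ = 1 / 10 := mul_one _
    rw [sub_mul, map_sub, hone j, ← h2] at h3
    have h4 : ‖(1 : ℂ)‖ ≤ ‖1 - ∑ v, ∑ w, mc (θ (a j)) v w * ⟪ξ v, R j (ξ w)⟫_ℂ‖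
        + ‖∑ v, ∑ w, mc (θ (a j)) v w * ⟪ξ v, R j (ξ w)⟫_ℂ‖ := by
      have := norm_add_le (1 - ∑ v, ∑ w, mc (θ (a j)) v w * ⟪ξ v, R j (ξ w)⟫_ℂ)
        (∑ v, ∑ w, mc (θ (a j)) v w * ⟪ξ v, R j (ξ w)⟫_ℂ)
      rwa [sub_add_cancel] at this
    rw [norm_one] at h4
    linarith
  -- the upper bound
  have hup : ∀ j, ‖∑ v, ∑ w, mc (θ (a j)) v w * ⟪ξ v, R j (ξ w)⟫_ℂ‖
      ≤ 2 * Real.sqrt (∑ v, ‖P j (ξ v)‖ ^ 2) := by
    intro j
    have hθ1 : ‖θ (a j)‖ ≤ 1 := (hθ _).trans (hnorm1 j)
    have hs1 : Real.sqrt (∑ v, ‖ξ v‖ ^ 2) ≤ 1 := by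
      rw [← Real.sqrt_one]
      exact Real.sqrt_le_sqrt hξ1
    have hsplit : ∀ v w, ⟪ξ v, R j (ξ w)⟫_ℂ
        = ⟪ξ v, R j (P j (ξ w))⟫_ℂ + ⟪P j (ξ v), R j (ξ w - P j (ξ w))⟫_ℂ := by
      intro v w
      have h1 : R j (ξ w) = R j (P j (ξ w)) + R j (ξ w - P j (ξ w)) := by
        rw [← map_add, add_sub_cancel]
      have h2 : ⟪ξ v, R j (ξ w - P j (ξ w))⟫_ℂ = ⟪P j (ξ v), R j (ξ w - P j (ξ w))⟫_ℂ := by
        have h3 : R j (ξ w - P j (ξ w)) ∈ LL t e π Ω j :=
          hR3 j _ (Submodule.sub_starProjection_mem_orthogonal _)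
        have h4 := Submodule.starProjection_inner_eq_zero (K := LL t e π Ω j) (ξ v)
          (R j (ξ w - P j (ξ w))) h3
        rw [inner_sub_left, sub_eq_zero] at h4
        exact h4
      rw [h1, inner_add_right, h2]
    have hsum : ∑ v, ∑ w, mc (θ (a j)) v w * ⟪ξ v, R j (ξ w)⟫_ℂ
        = ∑ v, ∑ w, mc (θ (a j)) v w * ⟪ξ v, R j (P j (ξ w))⟫_ℂ
          + ∑ v, ∑ w, mc (θ (a j)) v w * ⟪P j (ξ v), R j (ξ w - P j (ξ w))⟫_ℂ := by
      simp only [hsplit, mul_add, Finset.sum_add_distrib]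
    have hb1 : ‖∑ v, ∑ w, mc (θ (a j)) v w * ⟪ξ v, R j (P j (ξ w))⟫_ℂ‖
        ≤ Real.sqrt (∑ v, ‖P j (ξ v)‖ ^ 2) := by
      calc _ ≤ ‖θ (a j)‖ * Real.sqrt (∑ v, ‖ξ v‖ ^ 2)
            * Real.sqrt (∑ v, ‖R j (P j (ξ v))‖ ^ 2) :=
            schur_bound (θ (a j)) ξ (fun w => R j (P j (ξ w)))
        _ ≤ 1 * 1 * Real.sqrt (∑ v, ‖P j (ξ v)‖ ^ 2) := by
            gcongr with v _
            exact hR2 j _
        _ = _ := by ring
    have hb2 : ‖∑ v, ∑ w, mc (θ (a j)) v w * ⟪P j (ξ v), R j (ξ w - P j (ξ w))⟫_ℂ‖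
        ≤ Real.sqrt (∑ v, ‖P j (ξ v)‖ ^ 2) := by
      calc _ ≤ ‖θ (a j)‖ * Real.sqrt (∑ v, ‖P j (ξ v)‖ ^ 2)
            * Real.sqrt (∑ v, ‖R j (ξ v - P j (ξ v))‖ ^ 2) :=
            schur_bound (θ (a j)) (fun v => P j (ξ v)) (fun w => R j (ξ w - P j (ξ w)))
        _ ≤ 1 * Real.sqrt (∑ v, ‖P j (ξ v)‖ ^ 2) * Real.sqrt (∑ v, ‖ξ v‖ ^ 2) := by
            gcongr with v _
            refine (hR2 j _).trans ?_
            have h4 := (LL t e π Ω j).norm_sq_eq_add_norm_sq_starProjection (ξ v)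
            rw [Submodule.starProjection_orthogonal_val] at h4
            have h5 : ‖ξ v - P j (ξ v)‖ ^ 2 ≤ ‖ξ v‖ ^ 2 := by
              have := sq_nonneg ‖(LL t e π Ω j).starProjection (ξ v)‖
              rw [hP]
              linarith
            exact abs_le_of_sq_le_sq' h5 (norm_nonneg _) |>.2
        _ ≤ 1 * Real.sqrt (∑ v, ‖P j (ξ v)‖ ^ 2) * 1 := by gcongr
        _ = _ := by ring
    rw [hsum]
    linarith [norm_add_le (∑ v, ∑ w, mc (θ (a j)) v w * ⟪ξ v, R j (P j (ξ w))⟫_ℂ)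
      (∑ v, ∑ w, mc (θ (a j)) v w * ⟪P j (ξ v), R j (ξ w - P j (ξ w))⟫_ℂ)]
  -- comparison
  have hbes : ∑ j ∈ s, ∑ v, ‖P j (ξ v)‖ ^ 2 ≤ 1 := by
    rw [Finset.sum_comm]
    refine le_trans (Finset.sum_le_sum fun v _ => ?_) hξ1
    exact bessel hort s (ξ v)
  have h1 : ∑ j ∈ s, (9 / 10 : ℝ) ≤ ∑ j ∈ s, 2 * Real.sqrt (∑ v, ‖P j (ξ v)‖ ^ 2) :=
    Finset.sum_le_sum fun j hj => (hlow j hj).trans (hup j)
  have h2 : ∑ j ∈ s, 2 * Real.sqrt (∑ v, ‖P j (ξ v)‖ ^ 2) ≤ 2 * 3 := by
    rw [← Finset.mul_sum]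
    gcongr
    calc ∑ j ∈ s, Real.sqrt (∑ v, ‖P j (ξ v)‖ ^ 2)
        = ∑ j ∈ s, 1 * Real.sqrt (∑ v, ‖P j (ξ v)‖ ^ 2) := by simp
      _ ≤ Real.sqrt (∑ j ∈ s, (1 : ℝ) ^ 2)
          * Real.sqrt (∑ j ∈ s, Real.sqrt (∑ v, ‖P j (ξ v)‖ ^ 2) ^ 2) :=
          Real.sum_mul_le_sqrt_mul_sqrt s _ _
      _ ≤ 3 * 1 := by
          gcongr
          · rw [Finset.sum_const, hs]
            rw [show ((9 : ℕ) • (1 : ℝ) ^ 2) = 3 ^ 2 by norm_num, Real.sqrt_sq (by norm_num)]
          · rw [← Real.sqrt_one]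
            apply Real.sqrt_le_sqrt
            calc ∑ j ∈ s, Real.sqrt (∑ v, ‖P j (ξ v)‖ ^ 2) ^ 2
                = ∑ j ∈ s, ∑ v, ‖P j (ξ v)‖ ^ 2 := Finset.sum_congr rfl fun j _ =>
                  Real.sq_sqrt (Finset.sum_nonneg fun _ _ => by positivity)
              _ ≤ 1 := hbes
      _ = 3 := by norm_num
  rw [Finset.sum_const, hs] at h1
  norm_num at h1
  linarith

end Words

end Pool.Agent.V11109.NN
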