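import Mathlib

/-!
# A matrix acting on vectors of a Hilbert space
-/

set_option autoImplicit false

open scoped InnerProductSpace

namespace Pool.Agent.V11109.NN

/-- the matrix coefficients of an operator on `ℂ^κ` -/
noncomputable def mc {κ : Type*} [Fintype κ] [DecidableEq κ]
    (Θ : EuclideanSpace ℂ κ →L[ℂ] EuclideanSpace ℂ κ) (v w : κ) : ℂ :=
  ⟪EuclideanSpace.single v (1 : ℂ), Θ (EuclideanSpace.single w (1 : ℂ))⟫_ℂ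

lemma mc_sum {κ : Type*} [Fintype κ] [DecidableEq κ]
    (Θ : EuclideanSpace ℂ κ →L[ℂ] EuclideanSpace ℂ κ) (z y : EuclideanSpace ℂ κ) :
    ∑ v, ∑ w, mc Θ v w * (star (z v) * y w) = ⟪z, Θ y⟫_ℂ := by
  have hz : z = ∑ v, z v • EuclideanSpace.single v (1 : ℂ) := by
    ext i
    simp [Pi.single_apply]
  have hy : y = ∑ v, y v • EuclideanSpace.single v (1 : ℂ) := by
    ext i
    simp [Pi.single_apply]
  conv_rhs => rw [hz, hy]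
  rw [map_sum, sum_inner]
  refine Finset.sum_congr rfl fun v _ => ?_
  rw [inner_smul_left, inner_sum, Finset.mul_sum]
  refine Finset.sum_congr rfl fun w _ => ?_
  rw [map_smul, inner_smul_right, mc]
  simp only [Complex.star_def]
  ring

theorem schur_bound {κ : Type*} [Fintype κ] [DecidableEq κ]
    (Θ : EuclideanSpace ℂ κ →L[ℂ] EuclideanSpace ℂ κ)
    {H : Type*} [NormedAddCommGroup H] [InnerProductSpace ℂ H] (ζ ξ : κ → H) :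
    ‖∑ v, ∑ w, mc Θ v w * ⟪ζ v, ξ w⟫_ℂ‖
      ≤ ‖Θ‖ * Real.sqrt (∑ v, ‖ζ v‖ ^ 2) * Real.sqrt (∑ v, ‖ξ v‖ ^ 2) := by
  let V : Submodule ℂ H := Submodule.span ℂ (Set.range ζ ∪ Set.range ξ)
  have : FiniteDimensional ℂ V :=
    FiniteDimensional.span_of_finite ℂ ((Set.finite_range ζ).union (Set.finite_range ξ))
  let b := stdOrthonormalBasis ℂ V
  let ζ' : κ → V := fun v => ⟨ζ v, Submodule.subset_span (Or.inl ⟨v, rfl⟩)⟩
  let ξ' : κ → V := fun v => ⟨ξ v, Submodule.subset_span (Or.inr ⟨v, rfl⟩)⟩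
  let z : Fin (Module.finrank ℂ V) → EuclideanSpace ℂ κ := fun i =>
    WithLp.toLp 2 (fun v => ⟪b i, ζ' v⟫_ℂ)
  let y : Fin (Module.finrank ℂ V) → EuclideanSpace ℂ κ := fun i =>
    WithLp.toLp 2 (fun v => ⟪b i, ξ' v⟫_ℂ)
  have h1 : ∑ v, ∑ w, mc Θ v w * ⟪ζ v, ξ w⟫_ℂ = ∑ i, ⟪z i, Θ (y i)⟫_ℂ := by
    have h2 : ∀ v w, ⟪ζ v, ξ w⟫_ℂ = ∑ i, star (z i v) * y i w := by
      intro v w
      have h3 : ⟪ζ v, ξ w⟫_ℂ = ⟪ζ' v, ξ' w⟫_ℂ := rfl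
      rw [h3, ← b.sum_inner_mul_inner]
      refine Finset.sum_congr rfl fun i _ => ?_
      show _ = star ⟪b i, ζ' v⟫_ℂ * ⟪b i, ξ' w⟫_ℂ
      rw [Complex.star_def, inner_conj_symm]
    simp only [h2, Finset.mul_sum]
    have h4 : ∀ i, ⟪z i, Θ (y i)⟫_ℂ = ∑ v, ∑ w, mc Θ v w * (star (z i v) * y i w) :=
      fun i => (mc_sum Θ (z i) (y i)).symm
    simp only [h4]
    rw [Finset.sum_comm' (s := Finset.univ) (t := fun _ => Finset.univ)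
      (t' := Finset.univ) (s' := fun _ => Finset.univ) (by simp)]
    rw [Finset.sum_comm]
    rw [Finset.sum_comm (s := (Finset.univ : Finset (Fin (Module.finrank ℂ V))))]
    refine Finset.sum_congr rfl fun v _ => ?_
    rw [Finset.sum_comm]
  have hz : ∑ i, ‖z i‖ ^ 2 = ∑ v, ‖ζ v‖ ^ 2 := by
    have h2 : ∀ i, ‖z i‖ ^ 2 = ∑ v, ‖⟪b i, ζ' v⟫_ℂ‖ ^ 2 := fun i => EuclideanSpace.norm_sq_eq (z i)
    simp only [h2]
    rw [Finset.sum_comm]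
    refine Finset.sum_congr rfl fun v _ => ?_
    rw [b.sum_sq_norm_inner_right (ζ' v)]
    rfl
  have hy : ∑ i, ‖y i‖ ^ 2 = ∑ v, ‖ξ v‖ ^ 2 := by
    have h2 : ∀ i, ‖y i‖ ^ 2 = ∑ v, ‖⟪b i, ξ' v⟫_ℂ‖ ^ 2 := fun i => EuclideanSpace.norm_sq_eq (y i)
    simp only [h2]
    rw [Finset.sum_comm]
    refine Finset.sum_congr rfl fun v _ => ?_
    rw [b.sum_sq_norm_inner_right (ξ' v)]
    rfl
  rw [h1]
  calc ‖∑ i, ⟪z i, Θ (y i)⟫_ℂ‖ ≤ ∑ i, ‖⟪z i, Θ (y i)⟫_ℂ‖ := norm_sum_le _ _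
    _ ≤ ∑ i, ‖Θ‖ * (‖z i‖ * ‖y i‖) := by
        refine Finset.sum_le_sum fun i _ => ?_
        calc ‖⟪z i, Θ (y i)⟫_ℂ‖ ≤ ‖z i‖ * ‖Θ (y i)‖ := norm_inner_le_norm _ _
          _ ≤ ‖z i‖ * (‖Θ‖ * ‖y i‖) := by gcongr; exact Θ.le_opNorm _
          _ = _ := by ring
    _ = ‖Θ‖ * ∑ i, ‖z i‖ * ‖y i‖ := by rw [Finset.mul_sum]
    _ ≤ ‖Θ‖ * (Real.sqrt (∑ i, ‖z i‖ ^ 2) * Real.sqrt (∑ i, ‖y i‖ ^ 2)) := by
        gcongr
        exact Real.sum_mul_le_sqrt_mul_sqrt _ _ _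
    _ = _ := by rw [hz, hy, mul_assoc]

end Pool.Agent.V11109.NN
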